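import Pool.Agent.Helper20.Pfx.Def

/-!
# Quantifier-free formulas in a vocabulary of unary and binary relations
-/

set_option autoImplicit false

namespace Pool.Agent.Helper29.Prefix

open FirstOrder FirstOrder.Language Pool.Agent.Helper20.Spectra

/-- the vocabulary with unary relation symbols `U` and binary relation symbols `B` -/
def Lg (U B : Type) : FirstOrder.Language.{0, 0} :=
  ⟨fun _ => Empty, fun k => match k with
    | 1 => U
    | 2 => B
    | _ => Empty⟩

instance (U B : Type) : (Lg U B).IsRelational := fun _ => inferInstanceAs (IsEmpty Empty)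

lemma finite_rel (U B : Type) [Finite U] [Finite B] : Finite (Σ l, (Lg U B).Relations l) := by
  let f : (Σ l, (Lg U B).Relations l) → U ⊕ B := fun x => match x with
    | ⟨1, r⟩ => Sum.inl r
    | ⟨2, r⟩ => Sum.inr r
    | ⟨0, r⟩ => (r : Empty).elim
    | ⟨_ + 3, r⟩ => (r : Empty).elim
  refine Finite.of_injective f ?_
  rintro ⟨l, r⟩ ⟨l', r'⟩ h
  match l, r, l', r', h with
  | 1, r, 1, r', h => rw [Sum.inl.inj h]
  | 2, r, 2, r', h => rw [Sum.inr.inj h]
  | 1, r, 2, r', h => exact absurd h (by simp [f])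
  | 2, r, 1, r', h => exact absurd h (by simp [f])
  | 0, r, _, _, _ => exact (r : Empty).elim
  | _ + 3, r, _, _, _ => exact (r : Empty).elim
  | 1, _, 0, r', _ => exact (r' : Empty).elim
  | 1, _, _ + 3, r', _ => exact (r' : Empty).elim
  | 2, _, 0, r', _ => exact (r' : Empty).elim
  | 2, _, _ + 3, r', _ => exact (r' : Empty).elim

/-- the structure given by unary and binary relations -/
@[instance_reducible] def mkStr {U B M : Type} (u : U → M → Prop) (b : B → M → M → Prop) : (Lg U B).Structure M where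
  funMap := fun f _ => (f : Empty).elim
  RelMap := fun {k} => match k with
    | 1 => fun r v => u r (v 0)
    | 2 => fun r v => b r (v 0) (v 1)
    | 0 => fun r _ => (r : Empty).elim
    | _ + 3 => fun r _ => (r : Empty).elim

/-- the atomic diagram of a triple -/
abbrev Dg (U B : Type) : Type :=
  (U → Fin 3 → Prop) × (B → Fin 3 → Fin 3 → Prop) × (Fin 3 → Fin 3 → Prop)

/-- the atomic diagram of the triple `w` -/
def dg {U B M : Type} (u : U → M → Prop) (b : B → M → M → Prop) (w : Fin 3 → M) : Dg U B :=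
  (fun r i => u r (w i), fun r i j => b r (w i) (w j), fun i j => w i = w j)

/-- atoms about three variables -/
abbrev Atm (U B : Type) : Type := (U × Fin 3) ⊕ (B × Fin 3 × Fin 3) ⊕ (Fin 3 × Fin 3)

/-- the truth value of an atom in a diagram -/
def holds {U B : Type} (D : Dg U B) : Atm U B → Prop
  | Sum.inl (r, i) => D.1 r i
  | Sum.inr (Sum.inl (r, i, j)) => D.2.1 r i j
  | Sum.inr (Sum.inr (i, j)) => D.2.2 i j

lemma holds_ext {U B : Type} {D D' : Dg U B} (h : ∀ a, holds D a ↔ holds D' a) : D = D' := by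
  refine Prod.ext ?_ (Prod.ext ?_ ?_)
  · funext r i
    exact propext (h (Sum.inl (r, i)))
  · funext r i j
    exact propext (h (Sum.inr (Sum.inl (r, i, j))))
  · funext i j
    exact propext (h (Sum.inr (Sum.inr (i, j))))

section

variable {L : FirstOrder.Language.{0, 0}} {n : ℕ}

/-- `P` is given by a quantifier-free formula. -/
def Ex (L : FirstOrder.Language.{0, 0}) (n : ℕ)
    (P : (M : Type) → L.Structure M → (Fin n → M) → Prop) : Prop :=
  ∃ θ : L.BoundedFormula Empty n, θ.IsQF ∧
    ∀ (M : Type) (S : L.Structure M) (v : Fin n → M), θ.Realize default v ↔ P M S v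

lemma Ex.imp {P Q : (M : Type) → L.Structure M → (Fin n → M) → Prop} (hP : Ex L n P)
    (hQ : Ex L n Q) : Ex L n (fun M S v => P M S v → Q M S v) := by
  obtain ⟨θ, h1, h2⟩ := hP
  obtain ⟨θ', h1', h2'⟩ := hQ
  exact ⟨θ.imp θ', h1.imp h1', fun M S v => by
    rw [BoundedFormula.realize_imp, h2 M S v, h2' M S v]⟩

lemma Ex.false : Ex L n (fun _ _ _ => False) :=
  ⟨⊥, BoundedFormula.IsQF.falsum, fun M S v => BoundedFormula.realize_bot⟩

lemma Ex.congr {P Q : (M : Type) → L.Structure M → (Fin n → M) → Prop} (hP : Ex L n P)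
    (h : ∀ M S v, P M S v ↔ Q M S v) : Ex L n Q := by
  obtain ⟨θ, h1, h2⟩ := hP
  exact ⟨θ, h1, fun M S v => (h2 M S v).trans (h M S v)⟩

lemma Ex.not {P : (M : Type) → L.Structure M → (Fin n → M) → Prop} (hP : Ex L n P) :
    Ex L n (fun M S v => ¬ P M S v) := hP.imp Ex.false

lemma Ex.const (p : Prop) : Ex L n (fun _ _ _ => p) := by
  by_cases h : p
  · exact (Ex.false.not).congr (fun M S v => by simp [h])
  · exact Ex.false.congr (fun M S v => by simp [h])

lemma Ex.and {P Q : (M : Type) → L.Structure M → (Fin n → M) → Prop} (hP : Ex L n P)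
    (hQ : Ex L n Q) : Ex L n (fun M S v => P M S v ∧ Q M S v) :=
  ((hP.imp hQ.not).not).congr (fun M S v => by tauto)

lemma Ex.ball {ι : Type} (s : Finset ι)
    {P : ι → (M : Type) → L.Structure M → (Fin n → M) → Prop} (h : ∀ i, Ex L n (P i)) :
    Ex L n (fun M S v => ∀ i ∈ s, P i M S v) := by
  classical
  induction s using Finset.induction_on with
  | empty => exact (Ex.const True).congr (fun M S v => by simp)
  | insert a s _ ih =>
    exact ((h a).and ih).congr (fun M S v => by simp)

lemma Ex.bex {ι : Type} (s : Finset ι)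
    {P : ι → (M : Type) → L.Structure M → (Fin n → M) → Prop} (h : ∀ i, Ex L n (P i)) :
    Ex L n (fun M S v => ∃ i ∈ s, P i M S v) :=
  ((Ex.ball s (fun i => (h i).not)).not).congr (fun M S v => by simp)

end

/-- unary part of a structure -/
def uOf {U B M : Type} (S : (Lg U B).Structure M) (r : U) (x : M) : Prop :=
  S.RelMap (n := 1) r ![x]

/-- binary part of a structure -/
def bOf {U B M : Type} (S : (Lg U B).Structure M) (r : B) (x y : M) : Prop :=
  S.RelMap (n := 2) r ![x, y]

lemma Ex.holds {U B : Type} {n : ℕ} (w : Fin 3 → Fin n) (a : Atm U B) :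
    Ex (Lg U B) n (fun M S v => holds (dg (uOf S) (bOf S) (fun i => v (w i))) a) := by
  rcases a with ⟨r, i⟩ | ⟨r, i, j⟩ | ⟨i, j⟩
  · refine ⟨Relations.boundedFormula (L := Lg U B) (n := 1) (r : (Lg U B).Relations 1)
      ![(var (Sum.inr (w i)) : (Lg U B).Term (Empty ⊕ Fin n))],
      (BoundedFormula.IsAtomic.rel _ _).isQF, fun M S v => ?_⟩
    rw [BoundedFormula.realize_rel]
    refine Iff.of_eq (congrArg _ ?_)
    funext c
    fin_cases c
    rfl
  · refine ⟨Relations.boundedFormula (L := Lg U B) (n := 2) (r : (Lg U B).Relations 2)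
      ![(var (Sum.inr (w i)) : (Lg U B).Term (Empty ⊕ Fin n)), var (Sum.inr (w j))],
      (BoundedFormula.IsAtomic.rel _ _).isQF, fun M S v => ?_⟩
    rw [BoundedFormula.realize_rel]
    refine Iff.of_eq (congrArg _ ?_)
    funext c
    fin_cases c <;> rfl
  · refine ⟨Term.bdEqual (L := Lg U B)
      (var (Sum.inr (w i)) : (Lg U B).Term (Empty ⊕ Fin n)) (var (Sum.inr (w j))),
      (BoundedFormula.IsAtomic.equal _ _).isQF, fun M S v => ?_⟩
    rw [BoundedFormula.realize_bdEqual]
    rfl

/-- every property of the atomic diagram of three of the variables is given by a quantifier-free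
formula -/
lemma exists_matrix {U B : Type} [Finite U] [Finite B] (Mat : Dg U B → Prop) {n : ℕ}
    (w : Fin 3 → Fin n) :
    Ex (Lg U B) n (fun M S v => Mat (dg (uOf S) (bOf S) (fun i => v (w i)))) := by
  classical
  have := Fintype.ofFinite U
  have := Fintype.ofFinite B
  let mk : Finset (Atm U B) → Dg U B := fun s =>
    (fun r i => Sum.inl (r, i) ∈ s, fun r i j => Sum.inr (Sum.inl (r, i, j)) ∈ s,
      fun i j => Sum.inr (Sum.inr (i, j)) ∈ s)
  have hmk : ∀ s a, holds (mk s) a ↔ a ∈ s := by
    intro s a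
    rcases a with ⟨r, i⟩ | ⟨r, i, j⟩ | ⟨i, j⟩ <;> rfl
  have h1 : Ex (Lg U B) n (fun M S v => ∃ s ∈ (Finset.univ : Finset (Finset (Atm U B))),
      Mat (mk s) ∧ ∀ a ∈ (Finset.univ : Finset (Atm U B)),
        ¬ ((holds (dg (uOf S) (bOf S) (fun i => v (w i))) a → ¬ a ∈ s) ∧
          (¬ holds (dg (uOf S) (bOf S) (fun i => v (w i))) a → a ∈ s)) ∧
        (holds (dg (uOf S) (bOf S) (fun i => v (w i))) a → a ∈ s)) := by
    refine Ex.bex _ (fun s => (Ex.const _).and (Ex.ball _ (fun a => Ex.and (Ex.not (Ex.and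
      (Ex.imp (Ex.holds w a) (Ex.const _)) (Ex.imp (Ex.not (Ex.holds w a)) (Ex.const _))))
      (Ex.imp (Ex.holds w a) (Ex.const _)))))
  refine h1.congr (fun M S v => ?_)
  constructor
  · rintro ⟨s, -, h2, h3⟩
    have : dg (uOf S) (bOf S) (fun i => v (w i)) = mk s := by
      refine holds_ext (fun a => ?_)
      rw [hmk]
      have := h3 a (Finset.mem_univ a)
      tauto
    rw [this]
    exact h2
  · intro h2
    refine ⟨Finset.univ.filter (fun a => holds (dg (uOf S) (bOf S) (fun i => v (w i))) a),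
      Finset.mem_univ _, ?_, ?_⟩
    · have : dg (uOf S) (bOf S) (fun i => v (w i)) = mk (Finset.univ.filter
          (fun a => holds (dg (uOf S) (bOf S) (fun i => v (w i))) a)) := by
        refine holds_ext (fun a => ?_)
        rw [hmk]
        simp
      rw [← this]
      exact h2
    · intro a _
      simp only [Finset.mem_filter, Finset.mem_univ, true_and]
      tauto

/-- a semantic description of a class of prefix spectra -/
theorem prefixSpectrum_of {U B : Type} [Finite U] [Finite B] (Mat : Dg U B → Prop)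
    {q : ℕ → Bool} (h0 : q 0 = true) (h1 : q 1 = true) (h2 : q 2 = false) :
    PrefixSpectrum q 3 {N : ℕ | 1 ≤ N ∧ ∃ (M : Type) (_ : Fintype M) (u : U → M → Prop)
      (b : B → M → M → Prop), Fintype.card M = N ∧ ∀ x y, ∃ z, Mat (dg u b ![x, y, z])} := by
  obtain ⟨θ, h3, h4⟩ := exists_matrix Mat (n := 3) (fun i => i)
  refine ⟨Lg U B, inferInstance, finite_rel U B, θ, h3, ?_⟩
  have key : ∀ (M : Type) (S : (Lg U B).Structure M),
      (Sentence.Realize M (Pool.Agent.Helper20.Spectra.quantify q 3 θ)) ↔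
        ∀ x y, ∃ z, Mat (dg (uOf S) (bOf S) ![x, y, z]) := by
    intro M S
    rw [realize_quantify, preQ_AAE h0 h1 h2]
    simp only [h4 M S]
  ext N
  simp only [spec, Set.mem_ofPred_eq]
  refine and_congr_right (fun hN => ?_)
  constructor
  · rintro ⟨M, _, u, b, hM, h5⟩
    refine ⟨M, mkStr u b, inferInstance, hM, ?_⟩
    rw [key M (mkStr u b)]
    exact h5
  · rintro ⟨M, S, _, hM, h5⟩
    rw [key M S] at h5
    exact ⟨M, inferInstance, uOf S, bOf S, hM, h5⟩

end Pool.Agent.Helper29.Prefix
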