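import Pool.Agent.Helper20.Spectra.Defs

/-!
# Square tilings with border conditions
-/

set_option autoImplicit false

namespace Pool.Agent.Helper29.Prefix

open Pool.Agent.Helper20.Spectra

/-- a tiling system with border conditions -/
structure Wang (Γ : Type) where
  /-- horizontally compatible -/
  R : Γ → Γ → Prop
  /-- vertically compatible -/
  U : Γ → Γ → Prop
  /-- allowed at the left border -/
  l : Γ → Prop
  /-- allowed at the right border -/
  r : Γ → Prop
  /-- allowed at the lower border -/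
  b : Γ → Prop
  /-- allowed at the upper border -/
  t : Γ → Prop
  /-- allowed at the lower left corner -/
  c : Γ → Prop

/-- there is a tiling of the `N × N` square -/
def Tiles {Γ : Type} (W : Wang Γ) (N : ℕ) : Prop :=
  ∃ f : ℕ → ℕ → Γ, (∀ x y, x + 1 < N → y < N → W.R (f x y) (f (x + 1) y)) ∧
    (∀ x y, x < N → y + 1 < N → W.U (f x y) (f x (y + 1))) ∧
    (∀ y, y < N → W.l (f 0 y)) ∧ (∀ y, y < N → W.r (f (N - 1) y)) ∧
    (∀ x, x < N → W.b (f x 0)) ∧ (∀ x, x < N → W.t (f x (N - 1))) ∧ W.c (f 0 0)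

/-- the tiling system of a set of blocks; the tiles are the blocks with nonzero lower left entry -/
def blockWang (Θ : Finset (ℕ × ℕ × ℕ × ℕ)) : Wang {θ : ℕ × ℕ × ℕ × ℕ // θ ∈ Θ} where
  R := fun θ θ' => θ.1.2.1 = θ'.1.1 ∧ θ.1.2.2.2 = θ'.1.2.2.1 ∧ θ'.1.1 ≠ 0
  U := fun θ θ' => θ.1.2.2.1 = θ'.1.1 ∧ θ.1.2.2.2 = θ'.1.2.1 ∧ θ'.1.1 ≠ 0
  l := fun θ => (0, θ.1.1, 0, θ.1.2.2.1) ∈ Θ
  r := fun θ => θ.1.2.1 = 0 ∧ θ.1.2.2.2 = 0
  b := fun θ => (0, 0, θ.1.1, θ.1.2.1) ∈ Θ
  t := fun θ => θ.1.2.2.1 = 0 ∧ θ.1.2.2.2 = 0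
  c := fun θ => (0, 0, 0, θ.1.1) ∈ Θ ∧ θ.1.1 ≠ 0

lemma mem_squareSizes_iff (Θ : Finset (ℕ × ℕ × ℕ × ℕ)) {N : ℕ} (hN : 1 ≤ N) :
    N ∈ squareSizes Θ ↔ Tiles (blockWang Θ) N := by
  constructor
  · rintro ⟨-, a, ha, hb⟩
    have hne : ∀ x y, 1 ≤ x → x ≤ N → 1 ≤ y → y ≤ N → a x y ≠ 0 := fun x y h1 h2 h3 h4 =>
      (ha x y).2 ⟨⟨h1, h2⟩, h3, h4⟩
    have hz : ∀ x y, (x = 0 ∨ N < x ∨ y = 0 ∨ N < y) → a x y = 0 := by
      intro x y h
      by_contra h1
      obtain ⟨⟨h2, h3⟩, h4, h5⟩ := (ha x y).1 h1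
      omega
    have h0 := hb 1 1 hN hN
    let f : ℕ → ℕ → {θ : ℕ × ℕ × ℕ × ℕ // θ ∈ Θ} := fun x y =>
      if h : x + 1 ≤ N ∧ y + 1 ≤ N then ⟨_, hb (x + 1) (y + 1) h.1 h.2⟩ else ⟨_, h0⟩
    have hf : ∀ x y, x < N → y < N → (f x y).1 = (a (x + 1) (y + 1), a (x + 1 + 1) (y + 1),
        a (x + 1) (y + 1 + 1), a (x + 1 + 1) (y + 1 + 1)) := by
      intro x y hx hy
      simp only [f]
      rw [dif_pos ⟨hx, hy⟩]
    refine ⟨f, fun x y hx hy => ?_, fun x y hx hy => ?_, fun y hy => ?_, fun y hy => ?_,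
      fun x hx => ?_, fun x hx => ?_, ?_⟩
    · simp only [blockWang, hf x y (by omega) hy, hf (x + 1) y hx hy]
      exact ⟨trivial, trivial, hne _ _ (by omega) (by omega) (by omega) (by omega)⟩
    · simp only [blockWang, hf x y hx (by omega), hf x (y + 1) hx hy]
      exact ⟨trivial, trivial, hne _ _ (by omega) (by omega) (by omega) (by omega)⟩
    · simp only [blockWang, hf 0 y (by omega) hy]
      have := hb 0 (y + 1) (by omega) hy
      rwa [hz 0 (y + 1) (Or.inl rfl), hz 0 (y + 1 + 1) (Or.inl rfl)] at this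
    · simp only [blockWang, hf (N - 1) y (by omega) hy]
      exact ⟨hz _ _ (by omega), hz _ _ (by omega)⟩
    · simp only [blockWang, hf x 0 hx (by omega)]
      have := hb (x + 1) 0 hx (by omega)
      rwa [hz (x + 1) 0 (by omega), hz (x + 1 + 1) 0 (by omega)] at this
    · simp only [blockWang, hf x (N - 1) hx (by omega)]
      exact ⟨hz _ _ (by omega), hz _ _ (by omega)⟩
    · simp only [blockWang, hf 0 0 (by omega) (by omega)]
      have := hb 0 0 (by omega) (by omega)
      rw [hz 0 0 (Or.inl rfl), hz 0 (0 + 1) (Or.inl rfl), hz (0 + 1) 0 (by omega)] at this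
      exact ⟨this, hne _ _ le_rfl hN le_rfl hN⟩
  · rintro ⟨f, hR, hU, hl, hr, hb, ht, hc⟩
    have hpos : ∀ x y, x < N → y < N → (f x y).1.1 ≠ 0 := by
      intro x y hx hy
      rcases Nat.eq_zero_or_pos x with h | h
      · rcases Nat.eq_zero_or_pos y with h' | h'
        · rw [h, h']
          exact hc.2
        · have := (hU x (y - 1) hx (by omega)).2.2
          rwa [Nat.sub_add_cancel h'] at this
      · have := (hR (x - 1) y (by omega) hy).2.2
        rwa [Nat.sub_add_cancel h] at this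
    obtain ⟨a, ha1, ha0⟩ : ∃ a : ℕ → ℕ → ℕ,
        (∀ x y, x < N → y < N → a (x + 1) (y + 1) = (f x y).1.1) ∧
        ∀ x y, (x = 0 ∨ N < x ∨ y = 0 ∨ N < y) → a x y = 0 := by
      refine ⟨fun x y => if (1 ≤ x ∧ x ≤ N) ∧ (1 ≤ y ∧ y ≤ N) then
        (f (x - 1) (y - 1)).1.1 else 0, fun x y hx hy => ?_, fun x y h => ?_⟩
      · exact if_pos ⟨⟨by omega, by omega⟩, by omega, by omega⟩
      · exact if_neg (by omega)
    have e : ∀ x y, x < N → y < N → (f x y).1 = (a (x + 1) (y + 1), a (x + 1 + 1) (y + 1),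
        a (x + 1) (y + 1 + 1), a (x + 1 + 1) (y + 1 + 1)) := by
      intro x y hx hy
      refine Prod.ext (ha1 x y hx hy).symm (Prod.ext ?_ (Prod.ext ?_ ?_))
      · show (f x y).1.2.1 = a (x + 1 + 1) (y + 1)
        by_cases h2 : x + 1 < N
        · rw [(hR x y h2 hy).1, ha1 (x + 1) y h2 hy]
        · have h5 : x = N - 1 := by omega
          rw [ha0 (x + 1 + 1) (y + 1) (by omega), h5]
          exact (hr y hy).1
      · show (f x y).1.2.2.1 = a (x + 1) (y + 1 + 1)
        by_cases h2 : y + 1 < N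
        · rw [(hU x y hx h2).1, ha1 x (y + 1) hx h2]
        · have h5 : y = N - 1 := by omega
          rw [ha0 (x + 1) (y + 1 + 1) (by omega), h5]
          exact (ht x hx).1
      · show (f x y).1.2.2.2 = a (x + 1 + 1) (y + 1 + 1)
        by_cases h2 : x + 1 < N
        · by_cases h3 : y + 1 < N
          · rw [(hR x y h2 hy).2.1, (hU (x + 1) y h2 h3).1, ha1 (x + 1) (y + 1) h2 h3]
          · have h5 : y = N - 1 := by omega
            rw [ha0 (x + 1 + 1) (y + 1 + 1) (by omega), h5]
            exact (ht x hx).2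
        · have h5 : x = N - 1 := by omega
          rw [ha0 (x + 1 + 1) (y + 1 + 1) (by omega), h5]
          exact (hr y hy).2
    refine ⟨hN, a, fun x y => ?_, fun x y hx hy => ?_⟩
    · by_cases h : (1 ≤ x ∧ x ≤ N) ∧ (1 ≤ y ∧ y ≤ N)
      · have h1 := ha1 (x - 1) (y - 1) (by omega) (by omega)
        rw [Nat.sub_add_cancel h.1.1, Nat.sub_add_cancel h.2.1] at h1
        rw [h1]
        exact ⟨fun _ => h, fun _ => hpos _ _ (by omega) (by omega)⟩
      · rw [ha0 x y (by omega)]
        exact ⟨fun h1 => absurd rfl h1, fun h1 => absurd h1 h⟩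
    · rcases x with _ | x
      · rcases y with _ | y
        · rw [ha0 0 0 (by omega), ha0 (0 + 1) 0 (by omega), ha0 0 (0 + 1) (by omega),
            ha1 0 0 (by omega) (by omega)]
          exact hc.1
        · have h1 := hl y (by omega)
          simp only [blockWang, e 0 y (by omega) (by omega)] at h1
          rw [ha0 0 (y + 1) (by omega), ha0 0 (y + 1 + 1) (by omega)]
          exact h1
      · rcases y with _ | y
        · have h1 := hb x (by omega)
          simp only [blockWang, e x 0 (by omega) (by omega)] at h1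
          rw [ha0 (x + 1) 0 (by omega), ha0 (x + 1 + 1) 0 (by omega)]
          exact h1
        · rw [← e x y (by omega) (by omega)]
          exact (f x y).2

/-- every tile is cut into four tiles -/
def Wang.dbl {Γ : Type} (W : Wang Γ) : Wang (Γ × Bool × Bool) where
  R := fun θ θ' => θ'.2.2 = θ.2.2 ∧ θ'.2.1 = !θ.2.1 ∧
    (bif θ.2.1 then W.R θ.1 θ'.1 else θ.1 = θ'.1)
  U := fun θ θ' => θ'.2.1 = θ.2.1 ∧ θ'.2.2 = !θ.2.2 ∧
    (bif θ.2.2 then W.U θ.1 θ'.1 else θ.1 = θ'.1)
  l := fun θ => θ.2.1 = false ∧ W.l θ.1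
  r := fun θ => θ.2.1 = true ∧ W.r θ.1
  b := fun θ => θ.2.2 = false ∧ W.b θ.1
  t := fun θ => θ.2.2 = true ∧ W.t θ.1
  c := fun θ => W.c θ.1

lemma tiles_dbl {Γ : Type} (W : Wang Γ) {N : ℕ} (hN : 1 ≤ N) :
    Tiles W N ↔ Tiles W.dbl (2 * N) := by
  constructor
  · rintro ⟨f, hR, hU, hl, hr, hb, ht, hc⟩
    refine ⟨fun x y => (f (x / 2) (y / 2), decide (x % 2 = 1), decide (y % 2 = 1)),
      fun x y hx hy => ?_, fun x y hx hy => ?_, fun y hy => ?_, fun y hy => ?_,
      fun x hx => ?_, fun x hx => ?_, ?_⟩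
    · refine ⟨rfl, ?_, ?_⟩
      · rcases Nat.mod_two_eq_zero_or_one x with h | h
        · simp only [h, show (x + 1) % 2 = 1 by omega]
          rfl
        · simp only [h, show (x + 1) % 2 = 0 by omega]
          rfl
      · rcases Nat.mod_two_eq_zero_or_one x with h | h
        · simp only [h, show (x + 1) / 2 = x / 2 by omega]
          exact trivial
        · simp only [h, show (x + 1) / 2 = x / 2 + 1 by omega]
          exact hR (x / 2) (y / 2) (by omega) (by omega)
    · refine ⟨rfl, ?_, ?_⟩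
      · rcases Nat.mod_two_eq_zero_or_one y with h | h
        · simp only [h, show (y + 1) % 2 = 1 by omega]
          rfl
        · simp only [h, show (y + 1) % 2 = 0 by omega]
          rfl
      · rcases Nat.mod_two_eq_zero_or_one y with h | h
        · simp only [h, show (y + 1) / 2 = y / 2 by omega]
          exact trivial
        · simp only [h, show (y + 1) / 2 = y / 2 + 1 by omega]
          exact hU (x / 2) (y / 2) (by omega) (by omega)
    · exact ⟨rfl, hl (y / 2) (by omega)⟩
    · have h1 : (2 * N - 1) / 2 = N - 1 := by omega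
      have h2 : (2 * N - 1) % 2 = 1 := by omega
      simp only [Wang.dbl, h1, h2]
      exact ⟨rfl, hr (y / 2) (by omega)⟩
    · exact ⟨rfl, hb (x / 2) (by omega)⟩
    · have h1 : (2 * N - 1) / 2 = N - 1 := by omega
      have h2 : (2 * N - 1) % 2 = 1 := by omega
      simp only [Wang.dbl, h1, h2]
      exact ⟨rfl, ht (x / 2) (by omega)⟩
    · show W.c (f (0 / 2) (0 / 2))
      exact hc
  · rintro ⟨f, hR, hU, hl, hr, hb, ht, hc⟩
    have px : ∀ y, y < 2 * N → ∀ x, x < 2 * N → (f x y).2.1 = decide (x % 2 = 1) := by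
      intro y hy x
      induction x with
      | zero => intro _; exact (hl y hy).1
      | succ x ih =>
        intro hx
        rw [(hR x y hx hy).2.1, ih (by omega)]
        rcases Nat.mod_two_eq_zero_or_one x with h | h
        · simp only [h, show (x + 1) % 2 = 1 by omega]
          rfl
        · simp only [h, show (x + 1) % 2 = 0 by omega]
          rfl
    have py : ∀ x, x < 2 * N → ∀ y, y < 2 * N → (f x y).2.2 = decide (y % 2 = 1) := by
      intro x hx y
      induction y with
      | zero => intro _; exact (hb x hx).1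
      | succ y ih =>
        intro hy
        rw [(hU x y hx hy).2.1, ih (by omega)]
        rcases Nat.mod_two_eq_zero_or_one y with h | h
        · simp only [h, show (y + 1) % 2 = 1 by omega]
          rfl
        · simp only [h, show (y + 1) % 2 = 0 by omega]
          rfl
    have ex : ∀ x y, 2 * x + 1 < 2 * N → y < 2 * N → (f (2 * x) y).1 = (f (2 * x + 1) y).1 := by
      intro x y hx hy
      have h1 := (hR (2 * x) y hx hy).2.2
      rw [px y hy (2 * x) (by omega), show (2 * x) % 2 = 0 by omega] at h1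
      exact h1
    have ey : ∀ x y, x < 2 * N → 2 * y + 1 < 2 * N → (f x (2 * y)).1 = (f x (2 * y + 1)).1 := by
      intro x y hx hy
      have h1 := (hU x (2 * y) hx hy).2.2
      rw [py x hx (2 * y) (by omega), show (2 * y) % 2 = 0 by omega] at h1
      exact h1
    refine ⟨fun x y => (f (2 * x) (2 * y)).1, fun x y hx hy => ?_, fun x y hx hy => ?_,
      fun y hy => ?_, fun y hy => ?_, fun x hx => ?_, fun x hx => ?_, hc⟩
    · have h1 := (hR (2 * x + 1) (2 * y) (by omega) (by omega)).2.2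
      rw [px (2 * y) (by omega) (2 * x + 1) (by omega), show (2 * x + 1) % 2 = 1 by omega,
        ← ex x (2 * y) (by omega) (by omega)] at h1
      exact h1
    · have h1 := (hU (2 * x) (2 * y + 1) (by omega) (by omega)).2.2
      rw [py (2 * x) (by omega) (2 * y + 1) (by omega), show (2 * y + 1) % 2 = 1 by omega,
        ← ey (2 * x) y (by omega) (by omega)] at h1
      exact h1
    · exact (hl (2 * y) (by omega)).2
    · have h1 := (hr (2 * y) (by omega)).2
      rw [show 2 * N - 1 = 2 * (N - 1) + 1 by omega, ← ex (N - 1) (2 * y) (by omega) (by omega)]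
        at h1
      exact h1
    · exact (hb (2 * x) (by omega)).2
    · have h1 := (ht (2 * x) (by omega)).2
      rw [show 2 * N - 1 = 2 * (N - 1) + 1 by omega, ← ey (2 * x) (N - 1) (by omega) (by omega)]
        at h1
      exact h1

end Pool.Agent.Helper29.Prefix
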